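import Pool.Agent.L7h15.SQ.Stm

set_option autoImplicit false
set_option linter.unusedSectionVars false

/-! Project SQ: the period `Ω(E/L)` is `√|d_L| p ^ [L : K]` with the same `p` for all `L` (`S_OMG`). -/

namespace Pool.Agent.L7h65.SQ

open NumberField
open Pool.Agent.K4H55.BI (IQ embs)
open Pool.Agent.L7h15.SQ
open Pool.Agent.L7h82.RL (S_PER)
open scoped ComplexConjugate

/-- the periods are independent over `ℝ` -/
lemma im_ne (L : PeriodPair) : (L.ω₁ * conj L.ω₂).im ≠ 0 := by
  intro h0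
  have h1 := L.indep
  have h2 : L.ω₂ ≠ 0 := by
    have := h1.ne_zero 1
    simpa using this
  rw [LinearIndependent.pair_iff] at h1
  have h3 : ((L.ω₁ * conj L.ω₂).re : ℂ) = L.ω₁ * conj L.ω₂ := by
    apply Complex.ext
    · simp
    · rw [h0]; simp
  have h4 : (Complex.normSq L.ω₂ : ℂ) = L.ω₂ * conj L.ω₂ := (Complex.mul_conj _).symm
  obtain ⟨h6, h7⟩ := h1 (Complex.normSq L.ω₂) (-(L.ω₁ * conj L.ω₂).re) (by
    rw [Complex.real_smul, Complex.real_smul, h4]
    push_cast
    rw [h3]
    ring)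
  rw [Complex.normSq_eq_zero] at h6
  exact h2 h6

variable {K : Type} [Field K] [NumberField K] {σ : K →+* ℂ} {δ : K}

/-- the embeddings of `K` -/
lemma emb_or (h : IQ K σ δ) (τ : K →+* ℂ) : τ = σ ∨ τ = (starRingEnd ℂ).comp σ := by
  classical
  by_contra hne
  rw [not_or] at hne
  have h1 := (embs h (fun t => if t = τ.toRatAlgHom then (1 : ℂ) else 0)).1
  rw [Finset.sum_ite_eq' Finset.univ τ.toRatAlgHom (fun _ => (1 : ℂ)), if_pos (Finset.mem_univ _),
    if_neg, if_neg] at h1
  · norm_num at h1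
  · intro he
    exact hne.2 (RingHom.ext fun x => (congrArg (fun g : K →ₐ[ℚ] ℂ => g x) he).symm)
  · intro he
    exact hne.1 (RingHom.ext fun x => (congrArg (fun g : K →ₐ[ℚ] ℂ => g x) he).symm)

/-- an imaginary quadratic field has no real place -/
lemma cplx (h : IQ K σ δ) : IsTotallyComplex K := by
  refine ⟨fun v => ?_⟩
  rw [← InfinitePlace.not_isReal_iff_isComplex]
  intro hr
  have h1 : ComplexEmbedding.IsReal v.embedding := (InfinitePlace.isReal_iff).1 hr
  obtain ⟨x, hx⟩ := h.cplx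
  have h2 : conj (v.embedding x) = v.embedding x := by
    have := congrArg (fun f : K →+* ℂ => f x) (ComplexEmbedding.isReal_iff.1 h1)
    simpa using this
  rcases emb_or h v.embedding with h3 | h3
  · rw [h3] at h2
    exact hx h2
  · rw [h3] at h2
    simp only [RingHom.coe_comp, Function.comp_apply, Complex.conj_conj] at h2
    exact hx h2.symm

/-- the number of the places of `L` -/
lemma card_places (h : IQ K σ δ) (L : Type) [Field L] [NumberField L] [Algebra K L] :
    Fintype.card (InfinitePlace L) = Module.finrank K L := by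
  have i1 : IsTotallyComplex K := cplx h
  have i2 : IsTotallyComplex L := isTotallyComplex_of_algebra K L
  have h1 : Module.finrank ℚ L = 2 * InfinitePlace.nrComplexPlaces L := IsTotallyComplex.finrank L
  have h2 : Module.finrank ℚ K * Module.finrank K L = Module.finrank ℚ L := Module.finrank_mul_finrank ℚ K L
  rw [h.deg] at h2
  have h3 := InfinitePlace.card_eq_nrRealPlaces_add_nrComplexPlaces L
  rw [IsTotallyComplex.nrRealPlaces_eq_zero] at h3
  omega

/-- **OMG** -/
theorem s_OMG : S_OMG := by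
  intro hPER K _ _ σ δ h a b
  by_cases hQ : ∃ Q : PeriodPair, (Q.g₂ = -4 * σ a ∧ Q.g₃ = -4 * σ b) ∨
      (Q.g₂ = conj (-4 * σ a) ∧ Q.g₃ = conj (-4 * σ b))
  · obtain ⟨Q, hQ⟩ := hQ
    refine ⟨|(Q.ω₁ * conj Q.ω₂).im|, abs_pos.2 (im_ne Q), fun L _ _ _ Ω hΩ => ?_⟩
    obtain ⟨P, hP, hO⟩ := hΩ
    have hw : ∀ w : InfinitePlace L, |((P w).ω₁ * conj (P w).ω₂).im| = |(Q.ω₁ * conj Q.ω₂).im| := by
      intro w
      have h1 : ((P w).g₂ = -4 * σ a ∧ (P w).g₃ = -4 * σ b) ∨
          ((P w).g₂ = conj (-4 * σ a) ∧ (P w).g₃ = conj (-4 * σ b)) := by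
        rcases emb_or h (w.embedding.comp (algebraMap K L)) with h2 | h2
        · left
          rw [← h2]
          exact hP w
        · right
          have h3 : ∀ x, w.embedding (algebraMap K L x) = conj (σ x) := fun x =>
            congrArg (fun f : K →+* ℂ => f x) h2
          rw [(hP w).1, (hP w).2, h3, h3, map_mul, map_mul, map_neg, map_ofNat]
          exact ⟨rfl, rfl⟩
      apply hPER
      rcases h1 with ⟨h2, h3⟩ | ⟨h2, h3⟩ <;> rcases hQ with ⟨h4, h5⟩ | ⟨h4, h5⟩
      · left; rw [h2, h3, h4, h5]; exact ⟨rfl, rfl⟩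
      · right; rw [h2, h3, h4, h5, Complex.conj_conj, Complex.conj_conj]; exact ⟨rfl, rfl⟩
      · right; rw [h2, h3, h4, h5]; exact ⟨rfl, rfl⟩
      · left; rw [h2, h3, h4, h5]; exact ⟨rfl, rfl⟩
    rw [hO, Finset.prod_congr rfl fun w _ => hw w, Finset.prod_const, Finset.card_univ, card_places h L]
  · refine ⟨1, one_pos, fun L _ _ _ Ω hΩ => ?_⟩
    obtain ⟨P, hP, hO⟩ := hΩ
    exfalso
    have w : InfinitePlace L := Classical.arbitrary _
    refine hQ ⟨P w, ?_⟩
    rcases emb_or h (w.embedding.comp (algebraMap K L)) with h2 | h2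
    · left
      rw [← h2]
      exact hP w
    · right
      have h3 : ∀ x, w.embedding (algebraMap K L x) = conj (σ x) := fun x =>
        congrArg (fun f : K →+* ℂ => f x) h2
      rw [(hP w).1, (hP w).2, h3, h3, map_mul, map_mul, map_neg, map_ofNat]
      exact ⟨rfl, rfl⟩

end Pool.Agent.L7h65.SQ
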